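import Pool.Agent.MP_ea150c_mp.H20.SpecR

/-! Independence of exponentials, and conjugates of a simple dominant root. -/

namespace Pool.Agent.MP_ea150c_mp.H86

open Polynomial Pool.Agent.MP_ea150c_mp.H20

noncomputable section

/-- The shift of sequences. -/
def sh (R : Type) [CommRing R] : Module.End R (ℕ → R) := LinearMap.funLeft R R Nat.succ

/-- The action of polynomials on sequences. -/
def act {R : Type} [CommRing R] (μ : R[X]) (c : ℕ → R) : ℕ → R := aeval (sh R) μ c

section Alg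
variable {R : Type} [CommRing R]

theorem sh_pow (j : ℕ) (c : ℕ → R) (k : ℕ) : ((sh R) ^ j) c k = c (k + j) := by
  induction j generalizing k with
  | zero => simp
  | succ j ih =>
    rw [pow_succ', Module.End.mul_apply]
    change ((sh R) ^ j) c (k + 1) = _
    rw [ih]
    congr 1
    ring

theorem act_apply (μ : R[X]) (c : ℕ → R) (k : ℕ) :
    act μ c k = ∑ j ∈ μ.support, μ.coeff j * c (k + j) := by
  rw [act, aeval_endomorphism, Polynomial.sum, Finset.sum_apply]
  exact Finset.sum_congr rfl fun j _ => by rw [Pi.smul_apply, sh_pow, smul_eq_mul]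

theorem act_mul (μ ν : R[X]) (c : ℕ → R) : act (μ * ν) c = act μ (act ν c) := by
  simp [act]

theorem act_add (μ : R[X]) (c d : ℕ → R) : act μ (c + d) = act μ c + act μ d := by
  simp [act]

theorem act_sub (μ : R[X]) (c d : ℕ → R) : act μ (c - d) = act μ c - act μ d := by
  simp [act]

theorem act_lin (g : R) (c : ℕ → R) (k : ℕ) : act (X - C g) c k = c (k + 1) - g * c k := by
  simp only [act, map_sub, aeval_X, aeval_C, LinearMap.sub_apply, Pi.sub_apply,
    Module.algebraMap_end_apply, Pi.smul_apply, smul_eq_mul]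
  rfl

theorem act_exp {ι : Type} (μ : R[X]) (A : Finset ι) (a b : ι → R) (k : ℕ) :
    act μ (fun k => ∑ i ∈ A, a i * b i ^ k) k = ∑ i ∈ A, (a i * μ.eval (b i)) * b i ^ k := by
  rw [act_apply]
  simp_rw [Finset.mul_sum]
  rw [Finset.sum_comm]
  refine Finset.sum_congr rfl fun i _ => ?_
  rw [eval_eq_sum, Polynomial.sum, Finset.mul_sum, Finset.sum_mul]
  exact Finset.sum_congr rfl fun j _ => by ring

theorem act_zero (μ : R[X]) (c : ℕ → R) (k₀ : ℕ) (h : ∀ k, k₀ ≤ k → c k = 0) (k : ℕ)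
    (hk : k₀ ≤ k) : act μ c k = 0 := by
  rw [act_apply]
  exact Finset.sum_eq_zero fun j _ => by rw [h _ (by omega), mul_zero]

theorem act_map {S : Type} [CommRing S] (f : R →+* S) (hf : Function.Injective f) (μ : R[X])
    (c : ℕ → R) (k : ℕ) : f (act μ c k) = act (μ.map f) (fun k => f (c k)) k := by
  rw [act_apply, act_apply, map_sum, support_map_of_injective _ hf]
  exact Finset.sum_congr rfl fun j _ => by rw [map_mul, coeff_map]

end Alg

section Norm
variable {K : Type} [NormedField K]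

/-- Geometric decay from some index on. -/
def Bd (ρ : ℝ) (k₀ : ℕ) (c : ℕ → K) : Prop := ∃ C : ℝ, ∀ k, k₀ ≤ k → ‖c k‖ ≤ C * ρ ^ k

theorem bd_act {ρ : ℝ} {k₀ : ℕ} {c : ℕ → K} (h : Bd ρ k₀ c) (μ : K[X]) :
    Bd ρ k₀ (act μ c) := by
  obtain ⟨C, hC⟩ := h
  refine ⟨∑ j ∈ μ.support, ‖μ.coeff j‖ * (C * ρ ^ j), fun k hk => ?_⟩
  rw [act_apply, Finset.sum_mul]
  refine (norm_sum_le _ _).trans (Finset.sum_le_sum fun j _ => ?_)
  rw [norm_mul, mul_assoc]
  refine mul_le_mul_of_nonneg_left ((hC _ (by omega)).trans (le_of_eq ?_)) (norm_nonneg _)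
  ring

theorem bd_add {ρ : ℝ} {k₀ : ℕ} {c d : ℕ → K} (h : Bd ρ k₀ c) (h' : Bd ρ k₀ d) :
    Bd ρ k₀ (c + d) := by
  obtain ⟨C, hC⟩ := h
  obtain ⟨D, hD⟩ := h'
  refine ⟨C + D, fun k hk => ?_⟩
  rw [add_mul]
  exact (norm_add_le _ _).trans (add_le_add (hC k hk) (hD k hk))

theorem bd_congr {ρ : ℝ} {k₀ : ℕ} {c d : ℕ → K} (h : Bd ρ k₀ c) (e : ∀ k, k₀ ≤ k → d k = c k) :
    Bd ρ k₀ d := by
  obtain ⟨C, hC⟩ := h
  exact ⟨C, fun k hk => by rw [e k hk]; exact hC k hk⟩

theorem bd_small {ρ : ℝ} (k₀ : ℕ) (A : Finset K) (a : K → K)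
    (h : ∀ β ∈ A, ρ < ‖β‖ → a β = 0) : Bd ρ k₀ fun k => ∑ β ∈ A, a β * β ^ k := by
  refine ⟨∑ β ∈ A, ‖a β‖, fun k _ => ?_⟩
  rw [Finset.sum_mul]
  refine (norm_sum_le _ _).trans (Finset.sum_le_sum fun β hβ => ?_)
  by_cases hb : ρ < ‖β‖
  · simp [h β hβ hb]
  · rw [norm_mul, norm_pow]
    exact mul_le_mul_of_nonneg_left (pow_le_pow_left₀ (norm_nonneg _) (not_lt.1 hb) _)
      (norm_nonneg _)

theorem bd_one {ρ : ℝ} {k₀ : ℕ} {a g : K} (hρ : 0 ≤ ρ) (hg : ρ < ‖g‖)
    (h : Bd ρ k₀ fun k => a * g ^ k) : a = 0 := by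
  obtain ⟨C, hC⟩ := h
  have hg0 : 0 < ‖g‖ := hρ.trans_lt hg
  have ht : Filter.Tendsto (fun k : ℕ => C * (ρ / ‖g‖) ^ k) Filter.atTop (nhds (C * 0)) :=
    (tendsto_pow_atTop_nhds_zero_of_lt_one (by positivity) ((div_lt_one hg0).2 hg)).const_mul C
  rw [mul_zero] at ht
  refine norm_le_zero_iff.1 (ge_of_tendsto ht ?_)
  filter_upwards [Filter.eventually_ge_atTop k₀] with k hk
  have h1 := hC k hk
  rw [norm_mul, norm_pow] at h1
  rw [div_pow, ← mul_div_assoc, le_div_iff₀ (pow_pos hg0 k)]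
  exact h1

theorem bd_decay {ρ : ℝ} {k₀ : ℕ} {g : K} (hρ : 0 ≤ ρ) (hg : ρ < ‖g‖) (e : ℕ) :
    ∀ c : ℕ → K, Bd ρ k₀ c → (∀ k, k₀ ≤ k → act ((X - C g) ^ e) c k = 0) →
      ∀ k, k₀ ≤ k → c k = 0 := by
  induction e with
  | zero =>
    intro c _ h k hk
    simpa [act] using h k hk
  | succ e ih =>
    intro c hc h k hk
    have h1 := ih (act (X - C g) c) (bd_act hc _) fun k hk => by
      rw [← act_mul, ← pow_succ]; exact h k hk
    have h2 : ∀ n, c (k + n) = c k * g ^ n := by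
      intro n
      induction n with
      | zero => simp
      | succ n ihn =>
        have h3 := h1 (k + n) (by omega)
        rw [act_lin, ihn, sub_eq_zero] at h3
        rw [← add_assoc, h3]
        ring
    obtain ⟨D, hD⟩ := hc
    refine bd_one (k₀ := 0) hρ hg ⟨D * ρ ^ k, fun n _ => ?_⟩
    change ‖c k * g ^ n‖ ≤ _
    rw [← h2, mul_assoc, ← pow_add]
    exact hD _ (by omega)

end Norm

theorem sExp : SExp := by
  classical
  intro K _ A a C ρ k₀ hρ h γ hγ hlt
  have h1 : Bd ρ k₀ fun k => ∑ β ∈ A, a β * β ^ k := ⟨C, h⟩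
  have h2 := bd_act h1 (∏ β ∈ A.erase γ, (X - Polynomial.C β))
  have h3 : a γ * ∏ β ∈ A.erase γ, (γ - β) = 0 := by
    refine bd_one hρ hlt (bd_congr h2 fun k _ => ?_)
    rw [act_exp _ A a (fun β => β), Finset.sum_eq_single γ]
    · simp [eval_prod]
    · intro β hβ hne
      rw [eval_prod, Finset.prod_eq_zero (Finset.mem_erase.2 ⟨hne, hβ⟩) (by simp)]
      simp
    · intro h4; exact absurd hγ h4
  refine (mul_eq_zero.1 h3).resolve_right (Finset.prod_ne_zero_iff.2 fun β hβ => ?_)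
  exact sub_ne_zero.2 (Finset.ne_of_mem_erase hβ).symm

theorem ofConj : OfConj := by
  classical
  intro hE K _ _ T u s C₀ ρ hT hρ hu hus hb
  obtain ⟨μ, k₀, hμ, hrec⟩ := hT
  let A : Finset K := insert u s.toFinset
  let a : K → K := fun β => (if β = u then 1 else 0) - (s.count β : K)
  have hau : a u = 1 := by simp [a, Multiset.count_eq_zero.2 hus]
  have haA : ∀ β, β ∉ A → a β = 0 := by
    intro β hβ
    simp only [A, Finset.mem_insert, Multiset.mem_toFinset, not_or] at hβ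
    simp [a, hβ.1, Multiset.count_eq_zero.2 hβ.2]
  have hsum : ∀ k, u ^ k - ps s k = ∑ β ∈ A, a β * β ^ k := by
    intro k
    have e1 : ps s k = ∑ β ∈ A, (s.count β : K) * β ^ k := by
      rw [ps, Finset.sum_multiset_map_count, Finset.sum_insert (by simpa using hus),
        Multiset.count_eq_zero.2 hus]
      simp
    have e2 : u ^ k = ∑ β ∈ A, (if β = u then 1 else 0) * β ^ k := by
      simp [A]
    rw [e1, e2, ← Finset.sum_sub_distrib]
    exact Finset.sum_congr rfl fun β _ => by simp only [a]; ring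
  let k₁ := max k₀ 1
  let x : ℕ → K := fun k => ∑ β ∈ A, a β * β ^ k
  let er : ℕ → K := fun k => (T k : K) - x k
  have her : Bd ρ k₁ er :=
    ⟨C₀, fun k hk => by
      simp only [er, x, ← hsum]; exact hb k ((le_max_right _ _).trans hk)⟩
  have hTx : (fun k => (T k : K)) = x + er := by funext k; simp [er]
  have hrecF : ∀ (F : Type) [Field F] [CharZero F] (k : ℕ), k₁ ≤ k →
      act (μ.map (algebraMap ℚ F)) (fun k => (T k : F)) k = 0 := by
    intro F _ _ k hk
    have h1 := act_map (algebraMap ℚ F) (algebraMap ℚ F).injective μ (fun k => (T k : ℚ)) k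
    rw [act_apply μ] at h1
    have h2 := hrec k ((le_max_left _ _).trans hk)
    rw [Polynomial.sum] at h2
    rw [h2, map_zero] at h1
    simpa using h1.symm
  have hbig : ∀ β ∈ A, ρ < ‖β‖ → a β * (μ.map (algebraMap ℚ K)).eval β = 0 := by
    obtain ⟨D, hD⟩ := bd_act her (μ.map (algebraMap ℚ K))
    refine hE K A _ D ρ k₁ hρ fun k hk => ?_
    have h1 := hrecF K k hk
    rw [hTx, act_add, Pi.add_apply, act_exp _ A a (fun β => β)] at h1
    rw [eq_neg_of_add_eq_zero_left h1, norm_neg]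
    exact hD k hk
  have halg : IsAlgebraic ℚ u := by
    refine ⟨μ, hμ, ?_⟩
    have h1 := hbig u (Finset.mem_insert_self _ _) hu
    rwa [hau, one_mul, eval_map_algebraMap] at h1
  refine ⟨halg, fun γ hγ hne => ?_⟩
  by_contra hlt
  rw [not_le] at hlt
  have : Fact (Irreducible (minpoly ℚ u)) := ⟨minpoly.irreducible halg.isIntegral⟩
  let L := AdjoinRoot (minpoly ℚ u)
  have : CharZero L := algebraRat.charZero L
  let θ : L := AdjoinRoot.root _
  have hμL : μ.map (algebraMap ℚ L) ≠ 0 := Polynomial.map_ne_zero hμ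
  obtain ⟨ν, hν, hnd⟩ := exists_eq_pow_rootMultiplicity_mul_and_not_dvd _ hμL θ
  generalize rootMultiplicity θ (μ.map (algebraMap ℚ L)) = e at hν
  have hν0 : ν.eval θ ≠ 0 := fun h => hnd (dvd_iff_isRoot.2 h)
  let t : ℕ → L := act ν fun k => (T k : L)
  have key : ∀ f : L →+* K, ρ < ‖f θ‖ → ∀ k, k₁ ≤ k →
      f (t k) = a (f θ) * f (ν.eval θ) * f θ ^ k := by
    intro f hf
    have hfac : μ.map (algebraMap ℚ K) = (X - C (f θ)) ^ e * ν.map f := by
      have h1 := congrArg (Polynomial.map f) hν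
      rw [Polynomial.map_map, Polynomial.map_mul, Polynomial.map_pow, Polynomial.map_sub, map_X,
        map_C] at h1
      rw [← h1]
      congr 1
      exact Subsingleton.elim _ _
    have hft : ∀ k, f (t k) = act (ν.map f) (fun k => (T k : K)) k := by
      intro k
      simpa using act_map f f.injective ν (fun k => (T k : L)) k
    have hev : f (ν.eval θ) = (ν.map f).eval (f θ) := by
      rw [eval_map, eval₂_at_apply]
    let y : ℕ → K := fun k => a (f θ) * (ν.map f).eval (f θ) * f θ ^ k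
    have hz := bd_decay (k₀ := k₁) hρ hf (e + 1)
      (act (ν.map f) (fun k => (T k : K)) - y) ?_ ?_
    · intro k hk
      have h1 := hz k hk
      rw [Pi.sub_apply, sub_eq_zero] at h1
      rw [hft, h1, hev]
    · have h1 := bd_small k₁ (A.erase (f θ)) (fun β => a β * (ν.map f).eval β) (ρ := ρ) (by
        intro β hβ hb'
        have h2 := hbig β (Finset.mem_of_mem_erase hβ) hb'
        rw [hfac, eval_mul, eval_pow, eval_sub, eval_X, eval_C, mul_left_comm] at h2
        exact (mul_eq_zero.1 h2).resolve_left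
          (pow_ne_zero _ (sub_ne_zero.2 (Finset.ne_of_mem_erase hβ))))
      refine bd_congr (bd_add h1 (bd_act her (ν.map f))) fun k _ => ?_
      rw [hTx, act_add, Pi.sub_apply, Pi.add_apply, Pi.add_apply, act_exp _ A a (fun β => β)]
      by_cases hm : f θ ∈ A
      · rw [← Finset.add_sum_erase _ _ hm]
        simp only [y]
        ring
      · rw [Finset.erase_eq_of_notMem hm]
        simp only [y, haA _ hm]
        ring
    · intro k hk
      rw [act_sub, Pi.sub_apply, ← act_mul, pow_succ', mul_assoc, ← hfac, act_mul,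
        act_zero _ _ k₁ (hrecF K) k hk, ← pow_succ']
      have h1 := act_exp ((X - C (f θ)) ^ (e + 1)) ({0} : Finset ℕ)
        (fun _ => a (f θ) * (ν.map f).eval (f θ)) (fun _ => f θ) k
      simp only [Finset.sum_singleton] at h1
      rw [h1]
      simp
  have hl : ∀ g : K, aeval g (minpoly ℚ u) = 0 → ∃ f : L →+* K, f θ = g := fun g hg =>
    ⟨AdjoinRoot.lift (algebraMap ℚ K) g hg, AdjoinRoot.lift_root hg⟩
  obtain ⟨f₁, hf₁⟩ := hl u (minpoly.aeval ℚ u)
  obtain ⟨f₂, hf₂⟩ := hl γ hγ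
  have h1 := key f₁ (by rw [hf₁]; exact hu) k₁ le_rfl
  have h2 := key f₂ (by rw [hf₂]; exact hlt) k₁ le_rfl
  rw [show a (f₁ θ) = 1 by rw [hf₁, hau], one_mul, ← map_pow, ← map_mul] at h1
  rw [f₁.injective h1, map_mul, map_pow, mul_assoc, hf₂] at h2
  have hγ0 : γ ≠ 0 := norm_pos_iff.1 (hρ.trans_lt hlt)
  have h3 : a γ = 1 := by
    have h4 : f₂ (ν.eval θ) * γ ^ k₁ ≠ 0 :=
      mul_ne_zero ((map_ne_zero f₂).2 hν0) (pow_ne_zero _ hγ0)
    exact (mul_right_cancel₀ h4 (h2.symm.trans (one_mul _).symm))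
  simp only [a, if_neg hne, zero_sub] at h3
  have h5 : ((s.count γ + 1 : ℕ) : K) = 0 := by
    push_cast
    linear_combination -h3
  exact Nat.succ_ne_zero _ (Nat.cast_eq_zero.1 h5)

end

end Pool.Agent.MP_ea150c_mp.H86
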