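import Pool.Agent.MP_ea150c_mp.H49.SpecG

/-! Levels zero and one of the frame of a model. -/

namespace Pool.Agent.MP_ea150c_mp.H86

open Pool.Agent.MP_ea150c_mp.H49 Finset

set_option linter.unusedSectionVars false

noncomputable section

section Gen
variable {O A I ι : Type} [CommRing O] [AddCommGroup A] [Module O A]

theorem ch_sm {c : O} {S : Submodule O A} {x : A} : x ∈ sm c S ↔ ∃ y ∈ S, c • y = x :=
  Submodule.mem_map

theorem ch_sm_le {c : O} {S : Submodule O A} {x : A} (h : x ∈ sm c S) : x ∈ S := by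
  obtain ⟨y, hy, rfl⟩ := ch_sm.1 h
  exact S.smul_mem c hy

/-- One coefficient of a cochain of series. -/
def co (O : Type) [CommRing O] [Module O A] (l : ι → ℕ) :
    (Finset I → PS ι A) →ₗ[O] (Finset I → A) where
  toFun x J := x J l
  map_add' _ _ := rfl
  map_smul' _ _ := rfl

theorem co_ext {x y : Finset I → PS ι A} (h : ∀ l, co O l x = co O l y) : x = y :=
  funext fun J => funext fun l => congrFun (h l) J

theorem co_dl [LinearOrder I] (l : ι → ℕ) (x : Finset I → PS ι A) :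
    co O l (dl O (PS ι A) x) = dl O A (co O l x) := by
  funext J
  simp [co, dl, Finset.sum_apply]

variable [Fintype ι] [DecidableEq ι]

/-- A cochain placed at one coefficient. -/
def em (l : ι → ℕ) (y : Finset I → A) : Finset I → PS ι A := fun J => Pi.single l (y J)

theorem co_em (l l' : ι → ℕ) (y : Finset I → A) :
    co O l' (em l y) = if l' = l then y else 0 := by
  funext J
  by_cases h : l' = l
  · simp [co, em, h]
  · simp [co, em, h]

theorem ch_zero {l : ι → ℕ} (h : ∑ i, l i ≤ 0) : l = 0 :=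
  funext fun i => sum_eq_zero_iff.1 (Nat.le_zero.1 h) i (mem_univ i)

theorem ch_one {l : ι → ℕ} (h : ∑ i, l i ≤ 1) : l = 0 ∨ ∃ i, l = Pi.single i 1 := by
  by_cases h0 : l = 0
  · exact Or.inl h0
  obtain ⟨i, hi⟩ := Function.ne_iff.1 h0
  have h1 := add_sum_erase univ l (mem_univ i)
  have h2 : l i ≠ 0 := hi
  refine Or.inr ⟨i, funext fun j => ?_⟩
  by_cases hj : j = i
  · subst hj
    rw [Pi.single_eq_same]
    omega
  · rw [Pi.single_eq_of_ne hj]
    exact sum_eq_zero_iff.1 (show ∑ x ∈ univ.erase i, l x = 0 by omega) j (by simp [hj])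

theorem ch_single_inj {i j : ι} : (Pi.single i 1 : ι → ℕ) = Pi.single j 1 ↔ i = j := by
  refine ⟨fun h => by_contra fun hne => ?_, fun h => h ▸ rfl⟩
  simpa [hne] using congrFun h i

theorem ch_single_ne (i : ι) : (0 : ι → ℕ) ≠ Pi.single i 1 := fun h => by
  simpa using congrFun h i

end Gen

variable {I τ ι : Type} [LinearOrder I] [Fintype I] [Fintype τ] [DecidableEq τ] [Fintype ι]
  [DecidableEq ι] (M : Model I τ ι) (h : M.Good) (p : ℕ) [Fact p.Prime]

/-- The weight of the coefficient at `l`. -/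
def wl (l : ι → ℕ) : Gam I := 0 + M.w0 + ∑ i, l i • M.om i

theorem wl_zero : wl M 0 = M.w0 := by simp [wl]

theorem wl_one (i : ι) : wl M (Pi.single i 1) = M.w0 + M.om i := by
  simp [wl, Pi.single_apply]

theorem mem_CB (m : ℕ) (x : Finset I → PS ι (Ainv ℤ_[p] I τ)) : x ∈ (M.frame p h).CB m ↔
    (∀ l, ∑ i, l i ≤ m → co ℤ_[p] l x ∈ M.CA ℤ_[p] (wl M l)) ∧
      ∀ l, ¬ ∑ i, l i ≤ m → co ℤ_[p] l x = 0 := by
  constructor
  · rintro ⟨h0, h1⟩
    refine ⟨fun l hl => ⟨congrFun h0 l, fun J => ?_⟩, fun l hl => funext fun J => ?_⟩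
    · have h2 := h1 J l (Set.mem_univ l)
      simp only [if_pos hl] at h2
      exact h2
    · have h2 := h1 J l (Set.mem_univ l)
      simp only [if_neg hl] at h2
      exact h2
  · rintro ⟨h0, h1⟩
    refine ⟨funext fun l => ?_, fun J l _ => ?_⟩
    · by_cases hl : ∑ i, l i ≤ m
      · exact (h0 l hl).1
      · exact congrFun (h1 l hl) ∅
    · by_cases hl : ∑ i, l i ≤ m
      · simp only [if_pos hl]
        exact (h0 l hl).2 J
      · simp only [if_neg hl]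
        exact congrFun (h1 l hl) J

theorem mem_smCB (m : ℕ) (c : ℤ_[p]) (x : Finset I → PS ι (Ainv ℤ_[p] I τ)) :
    x ∈ sm c ((M.frame p h).CB m) ↔
    (∀ l, ∑ i, l i ≤ m → co ℤ_[p] l x ∈ sm c (M.CA ℤ_[p] (wl M l))) ∧
      ∀ l, ¬ ∑ i, l i ≤ m → co ℤ_[p] l x = 0 := by
  constructor
  · intro hx
    obtain ⟨y, hy, rfl⟩ := ch_sm.1 hx
    rw [mem_CB] at hy
    exact ⟨fun l hl => ch_sm.2 ⟨_, hy.1 l hl, rfl⟩, fun l hl => by rw [map_smul, hy.2 l hl, smul_zero]⟩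
  · rintro ⟨h0, h1⟩
    choose y hy hy' using fun l hl => ch_sm.1 (h0 l hl)
    refine ch_sm.2 ⟨fun J l => if hl : ∑ i, l i ≤ m then y l hl J else 0,
      (mem_CB M h p m _).2 ⟨fun l hl => ?_, fun l hl => funext fun J => dif_neg hl⟩, ?_⟩
    · have e : co ℤ_[p] l (fun J l => if hl : ∑ i, l i ≤ m then y l hl J else 0) = y l hl :=
        funext fun J => dif_pos hl
      rw [e]
      exact hy l hl
    · funext J l
      by_cases hl : ∑ i, l i ≤ m
      · simp only [Pi.smul_apply, dif_pos hl]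
        exact congrFun (hy' l hl) J
      · simp only [Pi.smul_apply, dif_neg hl, smul_zero]
        exact (congrFun (h1 l hl) J).symm

theorem em_CB (m : ℕ) (l : ι → ℕ) (hl : ∑ i, l i ≤ m) (y : Finset I → Ainv ℤ_[p] I τ)
    (hy : y ∈ M.CA ℤ_[p] (wl M l)) : em l y ∈ (M.frame p h).CB m := by
  refine (mem_CB M h p m _).2 ⟨fun l' _ => ?_, fun l' hl' => ?_⟩
  · rw [co_em]
    split_ifs with e
    · rwa [e]
    · exact zero_mem _
  · rw [co_em, if_neg fun e : l' = l => hl' (e ▸ hl)]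

theorem mem_sup01 (c : ℤ_[p]) (x : Finset I → PS ι (Ainv ℤ_[p] I τ)) :
    x ∈ (M.frame p h).CB 0 ⊔ sm c ((M.frame p h).CB 1) ↔
    co ℤ_[p] 0 x ∈ M.CA ℤ_[p] (wl M 0) ∧
      (∀ i, co ℤ_[p] (Pi.single i 1) x ∈ sm c (M.CA ℤ_[p] (wl M (Pi.single i 1)))) ∧
      ∀ l, ¬ ∑ i, l i ≤ 1 → co ℤ_[p] l x = 0 := by
  constructor
  · intro hx
    obtain ⟨a, ha, b, hb, rfl⟩ := Submodule.mem_sup.1 hx
    rw [mem_CB] at ha
    rw [mem_smCB] at hb
    refine ⟨?_, fun i => ?_, fun l hl => ?_⟩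
    · rw [map_add]
      exact add_mem (ha.1 0 (by simp)) (ch_sm_le (hb.1 0 (by simp)))
    · rw [map_add, ha.2 _ (by simp), zero_add]
      exact hb.1 _ (by simp)
    · rw [map_add, ha.2 l (by omega), hb.2 l hl, add_zero]
  · rintro ⟨h0, h1, h2⟩
    refine Submodule.mem_sup.2 ⟨em 0 (co ℤ_[p] 0 x), em_CB M h p 0 0 (by simp) _ h0,
      x - em 0 (co ℤ_[p] 0 x), (mem_smCB M h p 1 c _).2 ⟨fun l hl => ?_, fun l hl => ?_⟩, by simp⟩
    · rw [map_sub, co_em]
      rcases ch_one hl with rfl | ⟨i, rfl⟩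
      · simp
      · rw [if_neg (ch_single_ne i).symm, sub_zero]
        exact h1 i
    · rw [map_sub, co_em, h2 l hl, if_neg fun e => hl (by simp [e]), sub_zero]

theorem cc_off {J : Finset I} (hJ : J.card ≠ 3) : cc ℤ_[p] τ J = 0 := dif_neg hJ

theorem ccY_good (hdl : dl ℤ_[p] _ (cc ℤ_[p] τ : Finset I → Ainv ℤ_[p] I τ) = 0) (m : ℕ)
    (l : ι → ℕ) (hl : ∑ i, l i ≤ m) (a : Ainv ℤ_[p] I τ)
    (ha : ∀ J, a * cc ℤ_[p] τ J ∈ M.Ap ℤ_[p] J (wl M l)) :
    ccY ℤ_[p] a l ∈ (M.frame p h).CB m ∧ (∀ J : Finset I, J.card ≠ 3 → ccY ℤ_[p] a l J = 0) ∧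
      dl ℤ_[p] _ (ccY ℤ_[p] a l) = 0 := by
  refine ⟨em_CB M h p m l hl _ ⟨by simp [cc_off p (τ := τ) (J := (∅ : Finset I)) (by simp)], ha⟩, fun J hJ => by simp [ccY, cc_off p hJ],
    co_ext (O := ℤ_[p]) fun l' => ?_⟩
  have e : dl ℤ_[p] _ (fun J : Finset I => a * cc ℤ_[p] τ J) = 0 := by
    funext J
    have h1 := congrArg (a * ·) (congrFun hdl J)
    simpa [dl, mul_sum] using h1
  rw [co_dl, map_zero]
  change dl ℤ_[p] _ (co ℤ_[p] l' (em l _)) = 0
  rw [co_em]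
  split_ifs
  · exact e
  · exact map_zero _

theorem h0_of (hdl : dl ℤ_[p] _ (cc ℤ_[p] τ : Finset I → Ainv ℤ_[p] I τ) = 0)
    (a : Ainv ℤ_[p] I τ) (ha : ∀ J, a * cc ℤ_[p] τ J ∈ M.Ap ℤ_[p] J M.w0)
    (hC : M.CechP p M.w0 (Submodule.span ℤ_[p] {a})) : (M.frame p h).H0 (ccY ℤ_[p] a 0) := by
  rw [← wl_zero] at ha hC
  obtain ⟨g1, g2, -⟩ := ccY_good M h p hdl 0 0 (by simp) a ha
  refine ⟨g1, g2, fun x hx hd => ?_⟩
  rw [mem_CB] at hx
  rw [mem_smCB] at hd
  obtain ⟨b, hb, z, hz, hr⟩ := hC _ (hx.1 0 (by simp)) (co_dl (O := ℤ_[p]) 0 x ▸ hd.1 0 (by simp))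
  obtain ⟨c, rfl⟩ := Submodule.mem_span_singleton.1 hb
  refine ⟨c, em 0 z, em_CB M h p 0 0 (by simp) z hz,
    (mem_smCB M h p 0 _ _).2 ⟨fun l hl => ?_, fun l hl => ?_⟩⟩
  · rw [ch_zero hl, map_sub, map_sub, map_smul, co_dl, co_em, if_pos rfl]
    have e : c • co ℤ_[p] (0 : ι → ℕ) (ccY ℤ_[p] a 0) = fun J => c • a * cc ℤ_[p] τ J := by
      funext J
      simp [co, ccY]
    rw [e]
    exact hr
  · have hl0 : l ≠ 0 := fun e => hl (by simp [e])
    rw [map_sub, map_sub, map_smul, co_dl, co_em, if_neg hl0, hx.2 l hl,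
      ((mem_CB M h p 0 _).1 g1).2 l hl]
    simp

end

theorem ch0 (cx : CX) (cc' : CC) : CH0 := by
  intro I τ ι _ _ _ _ _ _ M h p _
  obtain ⟨hcA, hdl, -⟩ := cc' I τ ι M h ℤ_[p]
  obtain ⟨-, -, -, -, -, -, -, -, -, -, hmul, hmono, -⟩ := cx I τ ι M h ℤ_[p]
  refine ⟨fun hC => ?_, fun hw hC => h0_of M h p hdl 1 (fun J => by rw [one_mul, hw]; exact hcA J) hC,
    fun hw Inv hI hC => ⟨fun v hv => ?_, fun w hw1 _ hd => ?_⟩⟩
  · have h1 := h0_of M h p hdl 0 (fun J => by simp) (by simpa using hC)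
    have e : (ccY ℤ_[p] (0 : Ainv ℤ_[p] I τ) (0 : ι → ℕ)) = 0 := by
      funext J
      simp [ccY]
    rwa [e] at h1
  · induction hv using Submodule.span_induction with
    | mem x hx =>
      rcases hx with rfl | ⟨i, a, ha, rfl⟩
      · exact ccY_good M h p hdl 1 0 (by simp) 1 fun J => by
          rw [one_mul, wl_zero, hw]; exact hcA J
      · refine ccY_good M h p hdl 1 _ (by simp) a fun J => ?_
        rw [wl_one, hw, add_comm]
        exact hmul J _ _ _ _ (hmono ∅ J _ (empty_subset J) (hI i a ha)) (hcA J)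
    | zero => exact ⟨zero_mem _, fun _ _ => rfl, map_zero _⟩
    | add x y _ _ hx hy =>
      exact ⟨add_mem hx.1 hy.1, fun J hJ => by simp [hx.2.1 J hJ, hy.2.1 J hJ],
        by rw [map_add, hx.2.2, hy.2.2, add_zero]⟩
    | smul c x _ hx =>
      exact ⟨Submodule.smul_mem _ c hx.1, fun J hJ => by simp [hx.2.1 J hJ],
        by rw [map_smul, hx.2.2, smul_zero]⟩
  · rw [mem_CB] at hw1
    rw [mem_sup01] at hd
    simp_rw [← wl_one] at hC
    choose a ha z hz hr using fun i => hC i _ (hw1.1 (Pi.single i 1) (by simp))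
      (co_dl (O := ℤ_[p]) (Pi.single i 1) w ▸ hd.2.1 i)
    refine ⟨∑ i, ccY ℤ_[p] (a i) (Pi.single i 1),
      sum_mem fun i _ => Submodule.subset_span (Or.inr ⟨i, a i, ha i, rfl⟩),
      ∑ i, em (Pi.single i 1) (z i), sum_mem fun i _ => em_CB M h p 1 _ (by simp) _ (hz i), ?_⟩
    have e : ∀ i, ccY ℤ_[p] (a i) (Pi.single i 1 : ι → ℕ) =
        em (Pi.single i 1) fun J => a i * cc ℤ_[p] τ J := fun _ => rfl
    rw [mem_sup01]
    simp only [map_sub, co_dl, e]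
    simp only [map_sum, co_em]
    refine ⟨?_, fun i => ?_, fun l hl => ?_⟩
    · simpa [ch_single_ne] using hw1.1 0 (by simp)
    · simpa [ch_single_inj, apply_ite (dl ℤ_[p] (Ainv ℤ_[p] I τ))] using hr i
    · have hne : ∀ i, l ≠ Pi.single i 1 := fun i e => hl (by simp [e])
      simpa [hne] using hw1.2 l hl

end Pool.Agent.MP_ea150c_mp.H86
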