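import Pool.Agent.MP_ea150c_mp.H86.T4a

/-! The twisted Taylor formula for an elementary shift. -/

namespace Pool.Agent.MP_ea150c_mp.H86

open Pool.Agent.MP_ea150c_mp.H49 Finset

noncomputable section

variable (p : ℕ) [Fact p.Prime] {σ : Type} (tor : σ → Bool)

/-- Base change from the `p`-adic integers to the `p`-adic numbers. -/
def jq : Tor ℤ_[p] tor →+* Tor ℚ_[p] tor := tmap tor (algebraMap ℤ_[p] ℚ_[p])

theorem jq_coeff (z : Tor ℤ_[p] tor) (u : Mon tor) :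
    (jq p tor z).coeff u = (z.coeff u : ℚ_[p]) :=
  AddMonoidAlgebra.coeff_mapRingHom _ _ _

theorem jq_inj : Function.Injective (jq p tor) := by
  intro a b h
  ext u
  have h1 := congrArg (fun z : Tor ℚ_[p] tor => z.coeff u) h
  simp only [jq_coeff] at h1
  exact Subtype.ext h1

theorem jq_smul (c : ℤ_[p]) (z : Tor ℤ_[p] tor) : jq p tor (c • z) = c • jq p tor z := by
  ext u
  simp only [AddMonoidAlgebra.coeff_smul, Finsupp.smul_apply, jq_coeff, smul_eq_mul,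
    PadicInt.coe_mul]
  rfl

/-- The base change as an algebra map. -/
def jqA : Tor ℤ_[p] tor →ₐ[ℤ_[p]] Tor ℚ_[p] tor := AlgHom.mk' (jq p tor) (jq_smul p tor)

theorem jq_kap (m' m : ℕ) (f G : Tor ℤ_[p] tor) :
    jq p tor (kap p m' m f G) = kap p m' m (jq p tor f) (jq p tor G) := by
  simp [kap, map_sum, jq_smul]

variable [Fintype σ] [DecidableEq σ] {ι : Type} [Fintype ι] [DecidableEq ι]

theorem jq_psi (h7 : 7 ≤ p) (hq : K2q) (s1 : S1) (s1p : S1p) (f : ι → Tor ℤ_[p] tor)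
    (b : PS ι (Tor ℤ_[p] tor)) (l : ι → ℕ) :
    jq p tor (stdPsi p tor f b l) = EE (fun t => -jq p tor (f t)) (fun c => (∏ t, k1 p (c t)) •
      psi0 tor ℚ_[p] p (ZZ p (fun t => jq p tor (f t)) (fun l => jq p tor (b l)) c)) l := by
  obtain ⟨-, -, -, -, -, -, -, hm, -⟩ := s1 ℤ_[p] σ tor
  obtain ⟨-, -, -, -, hφ, hψ⟩ := hm ℚ_[p] (algebraMap ℤ_[p] ℚ_[p])
  have h := psi_eq hq p h7 (phi0 tor ℚ_[p] p).toRingHom (psi0 tor ℚ_[p] p).toAddMonoidHom
    ((s1 ℚ_[p] σ tor).2.2.2.2.2.1 p (by omega)) (fun t => jq p tor (f t))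
    (fun t => jq p tor (f t ^ p - phi0 tor ℤ_[p] p (f t) |> divp p)) (fun t => by
      have h1 := congrArg (jq p tor) ((s1p p σ tor).2.1 (f t))
      rw [map_mul, map_natCast, map_sub, map_pow] at h1
      rw [h1, sub_sub_cancel]
      exact hφ p (f t)) (fun l => jq p tor (b l)) l
  refine Eq.trans ?_ h
  change jq p tor (∑ l' ∈ _, psi0 tor ℤ_[p] p (Ker p f _ l l' * b l')) = _
  rw [map_sum]
  refine sum_congr rfl fun l' _ => (hψ p _).trans ?_
  change psi0 tor ℚ_[p] p (jq p tor _) = psi0 tor ℚ_[p] p _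
  rw [map_mul, Ker, Ker, map_prod]
  simp_rw [jq_kap]

theorem jq_dop (s1 : S1) (i : σ) (f : ι → Tor ℤ_[p] tor) (n : ℕ) :
    ∀ (b : PS ι (Tor ℤ_[p] tor)) (w : (ι → ℕ) → Tor ℚ_[p] tor),
      (∀ l, jq p tor (b l) = EE (fun t => -jq p tor (f t)) w l) →
      ∀ l, jq p tor ((DOp p (pd tor ℤ_[p] i) f ^ n) b l) =
        EE (fun t => -jq p tor (f t)) (fun c => (pd tor ℚ_[p] i ^ n) (w c)) l := by
  obtain ⟨-, -, -, -, -, -, -, hm, -⟩ := s1 ℤ_[p] σ tor
  obtain ⟨-, -, -, hd, -, -⟩ := hm ℚ_[p] (algebraMap ℤ_[p] ℚ_[p])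
  induction n with
  | zero => intro b w h l; simpa using h l
  | succ n ih =>
    intro b w h l
    rw [pow_succ, Module.End.mul_apply, ih _ (fun c => pd tor ℚ_[p] i (w c))]
    · simp only [pow_succ, Module.End.mul_apply]
    intro l
    refine Eq.trans ?_ (EE_der (pd tor ℚ_[p] i).toAddMonoidHom ((s1 ℚ_[p] σ tor).1 i) _ w l)
    have e : DOp p (pd tor ℤ_[p] i) f b l = pd tor ℤ_[p] i (b l) +
        ∑ t, pd tor ℤ_[p] i (f t) * (if l t = 0 then 0 else b (l - Pi.single t 1)) := by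
      simp [DOp, cw, ysh, Finset.sum_apply]
    rw [e, map_add, map_sum, ← h l]
    congr 1
    · exact hd i _
    · refine sum_congr rfl fun t _ => ?_
      rw [map_mul, apply_ite (jq p tor), map_zero, h]
      congr 1
      exact hd i _

end

theorem t4 (_h1 : K1) (hq : K2q) (s1 : S1) (s1p : S1p) (hu : T4u) (hx : ShiftEx) : T4 := by
  intro p _ h7
  refine ⟨fun n => (tc_spec p h7 n).2, Subtype.ext (by simpa using (tc_spec p h7 0).1), ?_⟩
  intro σ ι _ _ _ _ tor s i g hi hg hs hs' θ hθ f b l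
  obtain ⟨-, -, -, -, -, -, -, hm, -⟩ := s1 ℤ_[p] σ tor
  obtain ⟨hX, -, -, -, hφ, -⟩ := hm ℚ_[p] (algebraMap ℤ_[p] ℚ_[p])
  have hX' : ∀ x, jq p tor (tX tor ℤ_[p] x) = tX tor ℚ_[p] x := hX
  have hg' : jq p tor g ∈ supp tor ℚ_[p] (fun u => u i = 0) := fun u h =>
    hg u fun h0 => h (by rw [jq_coeff, h0]; rfl)
  obtain ⟨S, hS, hS'⟩ := (hx ℚ_[p] σ tor i _ hi hg').1
  have hc : ∀ z, jq p tor (s z) = S (jq p tor z) := by
    have h : (jqA p tor).comp s.toAlgHom =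
        (S.toAlgHom.restrictScalars ℤ_[p]).comp (jqA p tor) := by
      refine tor_ext tor fun x => ?_
      change jq p tor (s _) = S (jq p tor _)
      by_cases hxi : x = i
      · rw [hxi, hs, map_add, hX', hS]
      · rw [hs' x hxi, hX', hS' x hxi]
    exact fun z => DFunLike.congr_fun h z
  have hc' : ∀ z, jq p tor (s.symm z) = S.symm (jq p tor z) := fun z => by
    rw [AlgEquiv.eq_symm_apply, ← hc, AlgEquiv.apply_symm_apply]
  have hΘ : (tX tor ℚ_[p] i + jq p tor g) ^ p - phi0 tor ℚ_[p] p (jq p tor g) - tX tor ℚ_[p] i ^ p =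
      (p : ℚ) • jq p tor θ := by
    have h1 := congrArg (jq p tor) hθ
    rw [map_mul, map_natCast, map_sub, map_sub, map_pow, map_pow, map_add, hX'] at h1
    rw [Nat.cast_smul_eq_nsmul, nsmul_eq_mul, h1]
    congr 2
    exact (hφ p g).symm
  choose N₀ hN₀ using hu p (by omega) ℚ_[p] σ tor S i _ hi hg' hS hS'
  let Z := ZZ p (fun t => jq p tor (f t)) (fun l => jq p tor (b l))
  refine ⟨(Bx l).sup fun c => N₀ (Z c), fun N hN => jq_inj p tor ?_⟩
  have hR : ∀ n, jq p tor ((DOp p (pd tor ℤ_[p] i) f ^ n) (stdPsi p tor f (θ ^ n • b)) l) =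
      EE (fun t => -jq p tor (f t)) (fun c => (pd tor ℚ_[p] i ^ n) ((∏ t, k1 p (c t)) •
        psi0 tor ℚ_[p] p (jq p tor θ ^ n * Z c))) l := by
    intro n
    refine jq_dop p tor s1 i f n _ _ (fun l => ?_) l
    rw [jq_psi p tor h7 hq s1 s1p]
    simp only [Pi.smul_apply, smul_eq_mul, map_mul, map_pow, ZZ_mul, Z]
  rw [hc, jq_psi p tor h7 hq s1 s1p, map_sum]
  simp_rw [jq_smul, hR, hc']
  refine (EE_map S.toRingEquiv.toRingHom _ _ l).trans ?_
  simp only [EE, smul_sum]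
  rw [sum_comm]
  refine sum_congr rfl fun c hcl => ?_
  have h1 := hN₀ (Z c) N ((le_sup (f := fun c => N₀ (Z c)) hcl).trans hN)
  have h2 := ZZ_map S.symm.toRingEquiv.toRingHom p (fun t => jq p tor (f t))
    (fun l => jq p tor (b l)) c
  have h3 : ZZ p (fun t => S.symm (jq p tor (f t))) (fun l => S.symm (jq p tor (b l))) c =
      S.symm (Z c) := h2.symm
  have h4 : ∀ z, S.toRingEquiv.toRingHom z = S z := fun _ => rfl
  simp only [h4, map_neg, AlgEquiv.apply_symm_apply]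
  rw [h3, map_rat_smul, h1, hΘ, smul_sum, mul_sum]
  refine sum_congr rfl fun n _ => ?_
  rw [← algebraMap_smul ℚ_[p] (tc p n), ← mul_smul_comm]
  congr 1
  have h5 : algebraMap ℤ_[p] ℚ_[p] (tc p n) =
      algebraMap ℚ ℚ_[p] ((-(p : ℚ)) ^ n / (n.factorial : ℚ)) := (tc_spec p h7 n).1
  rw [h5, algebraMap_smul, algebraMap_smul, smul_pow, smul_mul_assoc, map_rat_smul, map_rat_smul,
    map_rat_smul, smul_smul, smul_smul, smul_smul]
  congr 1
  rw [neg_pow (p : ℚ)]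
  ring

end Pool.Agent.MP_ea150c_mp.H86
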