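import Pool.Agent.MP_ea150c_mp.H49.SpecK

/-! Exponential twists over a rational algebra. -/

namespace Pool.Agent.MP_ea150c_mp.H86

open Pool.Agent.MP_ea150c_mp.H49 Finset

noncomputable section

theorem tc_ex (p : ℕ) [hp : Fact p.Prime] (h7 : 7 ≤ p) (n : ℕ) : ∃ x : ℤ_[p],
    (x : ℚ_[p]) = (((-(p : ℚ)) ^ n / (n.factorial : ℚ) : ℚ) : ℚ_[p]) ∧ (p : ℤ_[p]) ^ nu n ∣ x := by
  obtain ⟨u, hu⟩ : p ^ padicValNat p n.factorial ∣ n.factorial := pow_padicValNat_dvd
  have hnd : ¬ p ∣ u := fun ⟨w, hw⟩ =>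
    pow_succ_padicValNat_not_dvd (p := p) n.factorial_ne_zero
      ⟨w, by rw [pow_succ, mul_assoc, ← hw]; exact hu⟩
  have hv : 6 * padicValNat p n.factorial ≤ n := by
    have h1 := sub_one_mul_padicValNat_factorial (p := p) n
    have h2 : 6 * padicValNat p n.factorial ≤ (p - 1) * padicValNat p n.factorial :=
      Nat.mul_le_mul_right _ (by omega)
    omega
  generalize padicValNat p n.factorial = v at hu hv
  have hunit : IsUnit (u : ℤ_[p]) := PadicInt.isUnit_iff.2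
    (PadicInt.norm_natCast_eq_one_iff.2 ((Nat.Prime.coprime_iff_not_dvd hp.out).2 hnd))
  obtain ⟨w, hw⟩ := hunit.exists_right_inv
  obtain ⟨e, he⟩ : ∃ e, n = v + (nu n + e) := ⟨n - v - nu n, by unfold nu; omega⟩
  refine ⟨(p : ℤ_[p]) ^ nu n * ((-1) ^ n * p ^ e * w), ?_, dvd_mul_right _ _⟩
  have hw' : (u : ℚ_[p]) * (w : ℚ_[p]) = 1 := by
    have := congrArg (fun z : ℤ_[p] => (z : ℚ_[p])) hw
    simpa using this
  have hp0 : (p : ℚ_[p]) ≠ 0 := Nat.cast_ne_zero.2 hp.out.ne_zero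
  have hf : ((n.factorial : ℕ) : ℚ_[p]) ≠ 0 := Nat.cast_ne_zero.2 n.factorial_ne_zero
  have hpn : (p : ℚ_[p]) ^ n = p ^ v * (p ^ nu n * p ^ e) := by
    rw [← pow_add, ← pow_add, ← he]
  push_cast
  rw [eq_div_iff hf, neg_pow (p : ℚ_[p]), hpn, hu]
  push_cast
  linear_combination ((-1) ^ n * (p : ℚ_[p]) ^ v * p ^ nu n * p ^ e) * hw'

theorem tc_spec (p : ℕ) [Fact p.Prime] (h7 : 7 ≤ p) (n : ℕ) :
    (tc p n : ℚ_[p]) = (((-(p : ℚ)) ^ n / (n.factorial : ℚ) : ℚ) : ℚ_[p]) ∧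
      (p : ℤ_[p]) ^ nu n ∣ tc p n := by
  obtain ⟨x, hx, hd⟩ := tc_ex p h7 n
  have h : tc p n = x := by
    have h1 : ‖(((-(p : ℚ)) ^ n / (n.factorial : ℚ) : ℚ) : ℚ_[p])‖ ≤ 1 := hx ▸ x.2
    exact (dif_pos h1).trans (Subtype.ext hx.symm)
  rw [h]
  exact ⟨hx, hd⟩

section Rat
variable {A : Type} [CommRing A] [Algebra ℚ A]

/-- The divided power, zero for negative exponents. -/
def eZ (f : A) (n : ℤ) : A :=
  if 0 ≤ n then (1 / (n.toNat.factorial : ℚ)) • f ^ n.toNat else 0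

theorem eZ_nat (f : A) (n : ℕ) : eZ f n = (1 / (n.factorial : ℚ)) • f ^ n := by
  simp [eZ]

theorem eZ_neg (f : A) {n : ℤ} (h : n < 0) : eZ f n = 0 := if_neg (by omega)

theorem eZ_map {A' : Type} [CommRing A'] [Algebra ℚ A'] (h : A →+* A') (f : A) (n : ℤ) :
    h (eZ f n) = eZ (h f) n := by
  unfold eZ
  split_ifs
  · rw [map_rat_smul, map_pow]
  · exact map_zero h

omit [Algebra ℚ A] in
theorem der_one (d : A →+ A) (hd : ∀ a b, d (a * b) = d a * b + a * d b) : d 1 = 0 := by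
  have h := hd 1 1
  rw [mul_one, mul_one, one_mul] at h
  exact left_eq_add.1 h

omit [Algebra ℚ A] in
theorem der_pow (d : A →+ A) (hd : ∀ a b, d (a * b) = d a * b + a * d b) (f : A) (n : ℕ) :
    d (f ^ (n + 1)) = ((n + 1 : ℕ) : A) * f ^ n * d f := by
  induction n with
  | zero => simp
  | succ n ih =>
    rw [pow_succ, hd, ih]
    push_cast
    ring

theorem eZ_der (d : A →+ A) (hd : ∀ a b, d (a * b) = d a * b + a * d b) (f : A) (n : ℤ) :
    d (eZ f n) = d f * eZ f (n - 1) := by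
  rcases lt_trichotomy n 0 with h | h | h
  · rw [eZ_neg f h, eZ_neg f (by omega), map_zero, mul_zero]
  · subst h
    rw [eZ_neg f (n := 0 - 1) (by omega), mul_zero]
    simp [eZ, der_one d hd]
  · obtain ⟨m, rfl⟩ : ∃ m : ℕ, n = ((m + 1 : ℕ) : ℤ) := ⟨(n - 1).toNat, by omega⟩
    have e : ((m + 1 : ℕ) : ℤ) - 1 = m := by omega
    rw [e, eZ_nat, eZ_nat, map_rat_smul, der_pow d hd, mul_assoc, ← nsmul_eq_mul,
      ← Nat.cast_smul_eq_nsmul ℚ, smul_smul, mul_smul_comm, mul_comm (d f)]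
    congr 1
    rw [Nat.factorial_succ]
    have h1 : ((m + 1 : ℕ) : ℚ) ≠ 0 := Nat.cast_ne_zero.2 (Nat.succ_ne_zero m)
    have h2 : ((m.factorial : ℕ) : ℚ) ≠ 0 := Nat.cast_ne_zero.2 m.factorial_ne_zero
    rw [Nat.cast_mul]
    field_simp

variable {ι : Type} [Fintype ι] [DecidableEq ι]

/-- The coefficients of the exponential of a sum. -/
def Ex (f : ι → A) (n : ι → ℤ) : A := ∏ t, eZ (f t) (n t)

omit [DecidableEq ι] in
theorem Ex_neg (f : ι → A) {n : ι → ℤ} (t : ι) (h : n t < 0) : Ex f n = 0 :=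
  prod_eq_zero (mem_univ t) (eZ_neg _ h)

omit [DecidableEq ι] in
theorem Ex_map {A' : Type} [CommRing A'] [Algebra ℚ A'] (h : A →+* A') (f : ι → A) (n : ι → ℤ) :
    h (Ex f n) = Ex (fun t => h (f t)) n := by
  simp [Ex, map_prod, eZ_map]

omit [Algebra ℚ A] [Fintype ι] in
theorem der_prod (d : A →+ A) (hd : ∀ a b, d (a * b) = d a * b + a * d b) (h1 : d 1 = 0)
    (S : Finset ι) (a : ι → A) :
    d (∏ t ∈ S, a t) = ∑ t ∈ S, d (a t) * ∏ r ∈ S.erase t, a r := by
  induction S using Finset.induction_on with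
  | empty => simpa using h1
  | insert x S hx ih =>
    rw [prod_insert hx, hd, ih, sum_insert hx, erase_insert hx, mul_sum]
    congr 1
    refine sum_congr rfl fun t ht => ?_
    have hne : x ≠ t := fun h => hx (h ▸ ht)
    rw [erase_insert_of_ne hne, prod_insert fun h => hx (mem_of_mem_erase h)]
    ring

theorem Ex_der (d : A →+ A) (hd : ∀ a b, d (a * b) = d a * b + a * d b) (f : ι → A)
    (n : ι → ℤ) : d (Ex f n) = ∑ t, d (f t) * Ex f (n - Pi.single t 1) := by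
  rw [Ex, der_prod d hd (der_one d hd)]
  refine sum_congr rfl fun t _ => ?_
  rw [eZ_der d hd, Ex, ← mul_prod_erase _ _ (mem_univ t), mul_assoc]
  congr 2
  · simp
  · exact prod_congr rfl fun r hr => by simp [Pi.single_eq_of_ne (ne_of_mem_erase hr)]

/-- The box below a multi-index. -/
def Bx (l : ι → ℕ) : Finset (ι → ℕ) := Fintype.piFinset fun t => range (l t + 1)

/-- Multiplication by the exponential. -/
def EE (f : ι → A) (w : (ι → ℕ) → A) (l : ι → ℕ) : A :=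
  ∑ c ∈ Bx l, Ex f (fun t => (l t : ℤ) - c t) * w c

theorem EE_map {A' : Type} [CommRing A'] [Algebra ℚ A'] (h : A →+* A') (f : ι → A)
    (w : (ι → ℕ) → A) (l : ι → ℕ) : h (EE f w l) = EE (fun t => h (f t)) (fun c => h (w c)) l := by
  simp [EE, map_sum, Ex_map]

theorem EE_shift (f : ι → A) (w : (ι → ℕ) → A) (l : ι → ℕ) (t : ι) :
    (if l t = 0 then 0 else EE f w (l - Pi.single t 1)) =
      ∑ c ∈ Bx l, Ex f ((fun r => (l r : ℤ) - c r) - Pi.single t 1) * w c := by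
  split_ifs with h
  · refine (sum_eq_zero fun c _ => ?_).symm
    rw [Ex_neg f t (by simp [h]; omega), zero_mul]
  · have e : ∀ c : ι → ℕ, (fun r => (((l - Pi.single t 1 : ι → ℕ) r : ℕ) : ℤ) - c r) =
        (fun r => (l r : ℤ) - c r) - Pi.single t 1 := by
      intro c
      funext r
      by_cases hr : r = t
      · subst hr; simp; omega
      · simp [Pi.single_eq_of_ne hr]
    rw [EE]
    simp_rw [e]
    refine sum_subset (fun c hc => ?_) fun c hc hn => ?_
    · simp only [Bx, Fintype.mem_piFinset, mem_range] at hc ⊢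
      intro r
      have := hc r
      simp only [Pi.sub_apply] at this
      omega
    · simp only [Bx, Fintype.mem_piFinset, mem_range, not_forall] at hc hn
      obtain ⟨r, hr⟩ := hn
      rw [← e, Ex_neg f r (by omega), zero_mul]

theorem EE_der (d : A →+ A) (hd : ∀ a b, d (a * b) = d a * b + a * d b) (F : ι → A)
    (w : (ι → ℕ) → A) (l : ι → ℕ) :
    d (EE (fun t => -F t) w l) +
      ∑ t, d (F t) * (if l t = 0 then 0 else EE (fun t => -F t) w (l - Pi.single t 1)) =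
      EE (fun t => -F t) (fun c => d (w c)) l := by
  simp_rw [EE_shift, mul_sum]
  rw [sum_comm, EE, EE, map_sum, ← sum_add_distrib]
  refine sum_congr rfl fun c _ => ?_
  rw [hd, Ex_der d hd, sum_mul, add_right_comm, ← sum_add_distrib, sum_eq_zero, zero_add]
  intro t _
  rw [map_neg]
  ring

/-- The sign and power of `p` in one variable. -/
def k1 (p c : ℕ) : ℚ := (-1) ^ (c + 1) * (p : ℚ) ^ c

theorem kap_eq (hq : K2q) (p : ℕ) [Fact p.Prime] (h7 : 7 ≤ p) [Algebra ℤ_[p] A] (f G : A)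
    (m' m : ℕ) : kap p m' m f G = ∑ c ∈ range (m' + 1),
      eZ (-(f ^ p - p * G)) ((m' : ℤ) - c) * (k1 p c • eZ f (p * (c + 1) - 1 - m)) := by
  rw [hq p h7 A f G m' m, ← sum_range_reflect]
  refine sum_congr rfl fun c hc => ?_
  obtain ⟨j, rfl⟩ : ∃ j, m' = c + j := ⟨m' - c, by have := mem_range.1 hc; omega⟩
  have e1 : c + j + 1 - 1 - c = j := by omega
  have e2 : ((c + j : ℕ) : ℤ) - c = j := by omega
  have e3 : c + j - j = c := by omega
  have e4 : p * (c + j + 1) = p * j + p * (c + 1) := by ring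
  rw [e1, e2, e3, e4, eZ_nat]
  split_ifs with h
  · obtain ⟨r, hr⟩ : ∃ r, p * (c + 1) = m + 1 + r := ⟨p * (c + 1) - (m + 1), by omega⟩
    have e5 : p * j + p * (c + 1) - (m + 1) - p * j = r := by omega
    have e6 : (p : ℤ) * (c + 1) - 1 - m = r := by
      have : ((p * (c + 1) : ℕ) : ℤ) = ((m + 1 + r : ℕ) : ℤ) := by rw [hr]
      push_cast at this
      omega
    rw [e5, e6, eZ_nat, neg_pow (f ^ p - p * G), smul_smul, smul_mul_smul_comm]
    have e7 : ((-1 : A) ^ j * (f ^ p - p * G) ^ j) * f ^ r =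
        ((-1 : ℚ) ^ j) • (f ^ r * (f ^ p - p * G) ^ j) := by
      rw [Algebra.smul_def, map_pow, map_neg, map_one]
      ring
    rw [e7, smul_smul]
    congr 1
    unfold k1
    ring
  · rw [eZ_neg f, smul_zero, mul_zero]
    have : ((p * (c + 1) : ℕ) : ℤ) < ((m + 1 : ℕ) : ℤ) := by exact_mod_cast (by omega)
    push_cast at this
    omega

/-- The coefficient of the twisted series that is seen by the Cartier operator. -/
def ZZ (p : ℕ) (F : ι → A) (B : (ι → ℕ) → A) (c : ι → ℕ) : A :=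
  ∑ l ∈ Fintype.piFinset (fun t => range (p * (c t + 1))),
    Ex F (fun t => (p : ℤ) * (c t + 1) - 1 - l t) * B l

theorem ZZ_map {A' : Type} [CommRing A'] [Algebra ℚ A'] (h : A →+* A') (p : ℕ) (F : ι → A)
    (B : (ι → ℕ) → A) (c : ι → ℕ) :
    h (ZZ p F B c) = ZZ p (fun t => h (F t)) (fun l => h (B l)) c := by
  simp [ZZ, map_sum, Ex_map]

theorem ZZ_mul (p : ℕ) (F : ι → A) (a : A) (B : (ι → ℕ) → A) (c : ι → ℕ) :
    ZZ p F (fun l => a * B l) c = a * ZZ p F B c := by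
  rw [ZZ, ZZ, mul_sum]
  exact sum_congr rfl fun l _ => by ring

theorem psi_eq (hq : K2q) (p : ℕ) [Fact p.Prime] (h7 : 7 ≤ p) [Algebra ℤ_[p] A] (φ : A →+* A)
    (ψ : A →+ A) (hψ : ∀ a b, ψ (φ a * b) = a * ψ b) (F G : ι → A)
    (hG : ∀ t, F t ^ p - p * G t = φ (F t)) (B : (ι → ℕ) → A) (l' : ι → ℕ) :
    ∑ l ∈ Fintype.piFinset (fun t => range (p * (l' t + 1))), ψ (Ker p F G l' l * B l) =
      EE (fun t => -F t) (fun c => (∏ t, k1 p (c t)) • ψ (ZZ p F B c)) l' := by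
  have hK : ∀ l, Ker p F G l' l = ∑ c ∈ Bx l', φ (Ex (fun t => -F t) fun t => (l' t : ℤ) - c t) *
      ((∏ t, k1 p (c t)) • Ex F fun t => (p : ℤ) * (c t + 1) - 1 - l t) := by
    intro l
    unfold Ker
    simp_rw [kap_eq hq p h7, hG]
    rw [prod_univ_sum]
    refine sum_congr rfl fun c _ => ?_
    rw [prod_mul_distrib, Ex_map, prod_smul]
    simp [Ex]
  simp_rw [hK, sum_mul, map_sum]
  rw [sum_comm, EE]
  refine sum_congr rfl fun c hc => ?_
  simp_rw [mul_assoc, hψ, smul_mul_assoc, map_rat_smul]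
  rw [← mul_sum, ← smul_sum, ← map_sum]
  congr 3
  refine (sum_subset (fun l hl => ?_) fun l _ hn => ?_).symm
  · simp only [Bx, Fintype.mem_piFinset, mem_range] at hc hl ⊢
    exact fun t => (hl t).trans_le (Nat.mul_le_mul_left _ (hc t))
  · simp only [Fintype.mem_piFinset, mem_range, not_forall, not_lt] at hn
    obtain ⟨r, hr⟩ := hn
    rw [Ex_neg F r, zero_mul]
    have : ((p * (c r + 1) : ℕ) : ℤ) ≤ l r := by exact_mod_cast hr
    push_cast at this
    omega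

end Rat

end

end Pool.Agent.MP_ea150c_mp.H86
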