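import Pool.Agent.MP_ea150c_mp.H49.SpecV

/-! The cocycle on the charts of both kinds. -/

namespace Pool.Agent.MP_ea150c_mp.H86

open Pool.Agent.MP_ea150c_mp.H49 Finset

noncomputable section

theorem vw_dl {O E I : Type} [CommRing O] [AddCommGroup E] [Module O E] [LinearOrder I]
    (x : Finset I → E) (J : Finset I) :
    dl O E x J = ∑ j ∈ J, ((-1 : ℤ) ^ (J.filter (· < j)).card) • x (J.erase j) := by
  change ∑ j ∈ J, ((-1 : O) ^ (J.filter (· < j)).card) • x (J.erase j) = _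
  refine sum_congr rfl fun j _ => ?_
  rw [← Int.cast_smul_eq_zsmul O]
  simp

theorem vw_ms {ι A : Type} [CommRing A] (a b : A) (x : PS ι A) : (a * b) • x = a • b • x :=
  mul_smul a b x

theorem vw_const {K Λ : Type} [Field K] (g : Λ → SR K) (J : Finset Λ) (c : K) :
    algebraMap K (LR K) c ∈ Loc (LR K) g J :=
  ⟨0, algebraMap K (SR K) c, by rw [pow_zero, one_mul, ← IsScalarTower.algebraMap_apply]⟩

theorem vw_emb {Λ Λ' : Type} [LinearOrder Λ] [LinearOrder Λ'] (e : Λ' ↪o Λ) (J : Finset Λ')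
    {n : ℕ} (h : J.card = n) (h' : (J.map e.toEmbedding).card = n) (i : Fin n) :
    (J.map e.toEmbedding).orderEmbOfFin h' i = e (J.orderEmbOfFin h i) :=
  (congrFun (orderEmbOfFin_unique h' (f := fun i => e (J.orderEmbOfFin h i))
    (fun i => mem_map_of_mem e.toEmbedding (orderEmbOfFin_mem J h i))
    (e.strictMono.comp (J.orderEmbOfFin h).strictMono)) i).symm

theorem vw_ccL {K Λ Λ' : Type} [Field K] [LinearOrder Λ] [LinearOrder Λ'] (e : Λ' ↪o Λ)
    (Y : Λ → Fin 4 → K) (J : Finset Λ') :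
    ccL Y (J.map e.toEmbedding) = ccL (fun j => Y (e j)) J := by
  unfold ccL
  by_cases h : J.card = 3
  · have h' : (J.map e.toEmbedding).card = 3 := by rwa [card_map]
    rw [dif_pos h, dif_pos h']
    simp only [vw_emb e J h h']
  · rw [dif_neg h, dif_neg (by rwa [card_map])]

/-- The charts of the first kind as an order embedding. -/
def eo (I : Type) [LinearOrder I] : I ↪o I ⊕ₗ I := ⟨e1 I, Sum.Lex.inl_le_inl_iff⟩

variable {I E : Type} [LinearOrder I] [Fintype I] [Fintype E] [DecidableEq E] {G : PG I E}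
  {K : Type} [Field K] {P : Pt I K}

theorem vw_X1 (hP : P.Good G) {lam : K} (hl : lam ≠ 0) (v : I) : P.X1 lam v ≠ 0 := by
  intro h0
  by_cases hv : v = P.w
  · have h1 := congrFun h0 3
    simp [Pt.X1, hv, hP.Xw, hP.alw, hl] at h1
  · obtain ⟨r, hr, h2⟩ := hP.gen v hv
    have h1 := congrFun h0 r
    fin_cases r <;> simp_all [Pt.X1]

theorem vw_XK (hP : P.Good G) {lam : K} (hl : lam ≠ 0) (κ : I ⊕ₗ I) : P.XK lam κ ≠ 0 := by
  obtain ⟨j | j, rfl⟩ := toLex.surjective κ
  · exact vw_X1 hP hl j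
  · change (if j = P.w then P.X1 lam j else P.al P.w • P.X j) ≠ 0
    split_ifs with hj
    · exact vw_X1 hP hl j
    · obtain ⟨r, -, h2⟩ := hP.gen j hj
      exact smul_ne_zero hP.alw fun h0 => h2 (congrFun h0 r)

theorem vw_rad (hP : P.Good G) (lam : K) (D : Ideal (SR K)) (hD : ∀ j, gS (P.X1 lam j) ∈ D)
    (κ : I ⊕ₗ I) : gS (P.XK lam κ) ∈ D := by
  obtain ⟨j | j, rfl⟩ := toLex.surjective κ
  · exact hD j
  · change gS (if j = P.w then P.X1 lam j else P.al P.w • P.X j) ∈ D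
    split_ifs with hj
    · exact hD j
    · have e : gS (P.al P.w • P.X j) = MvPolynomial.C (P.al P.w) * gS (P.X1 lam j) -
          MvPolynomial.C (P.al j) * gS (P.X1 lam P.w) := by
        simp [gS, Pt.X1, hP.Xw]
        ring
      rw [e]
      exact sub_mem (D.mul_mem_left _ (hD j)) (D.mul_mem_left _ (hD _))

variable {p : ℕ} [Fact p.Prime]

/-- The stress functional as an additive map. -/
def sigH (P : Pt I K) (G : PG I E) (ev : Zr ℤ_[p] I (Ex0 I) →+* LR K) :
    (Io G univ → Ainv ℤ_[p] I (Ex0 I)) →+ LR K :=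
  AddMonoidHom.mk' (P.sig G ev) fun u v => by simp [Pt.sig, mul_add, sum_add_distrib]

theorem sigH_smul (ev : Zr ℤ_[p] I (Ex0 I) →+* LR K) (a : Ainv ℤ_[p] I (Ex0 I))
    (u : Io G univ → Ainv ℤ_[p] I (Ex0 I)) : sigH P G ev (a • u) = ev a.1 * sigH P G ev u := by
  change P.sig G ev _ = _ * P.sig G ev _
  simp only [Pt.sig, mul_sum, Pi.smul_apply, smul_eq_mul, Subalgebra.coe_mul, map_mul]
  exact sum_congr rfl fun i _ => by ring

theorem xc_one (h : G.M0.Good) (x₀ : ℤ_[p]) (m : Io G univ → ℤ_[p]) (s : I → I → ℤ_[p])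
    (i : Io G univ) : G.xc h p x₀ m s (Pi.single i 1) = G.aI h p m s i := by
  have h0 : (Pi.single i 1 : Io G univ → ℕ) ≠ 0 := fun h => by simpa using congrFun h i
  rw [PG.xc, Pi.add_apply, Pi.single_eq_of_ne h0, zero_add, Finset.sum_apply, sum_eq_single i,
    Pi.single_eq_same]
  · intro j _ hj
    refine Pi.single_eq_of_ne (fun h => ?_) _
    simpa [hj.symm] using congrFun h i
  · simp

end

theorem vw (vu : VU) (ve : VE) (vp : VP) (vt : VT) (vnt : VNT) (g2a : G2a) : VW := by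
  intro I E _ _ _ _ G hG h p _ h7 K _ _ P hP x₀ m s s' hrel lam hl ev hev
  obtain ⟨u1, u2, u3, u4, u5, u6, u7⟩ := vu _ _ _ G.M0 h p h7
  obtain ⟨e1', e2, -, e4, e5, e6⟩ := (ve I E G hG h p h7 K P hP lam hl).2 ev hev
  obtain ⟨-, p2, p3, p4, p5, p6⟩ := vp I E G hG h p h7 P.w
  have mono := (g2a _ _ _ G.M0 h p).monoH
  have hg : ∀ κ, algebraMap (SR K) (LR K) (gS (P.XK lam κ)) ≠ 0 := fun κ =>
    (vnt K (I ⊕ₗ I)).1 _ (vw_XK hP hl κ)
  have hG0 : ∀ J : Finset (I ⊕ₗ I), algebraMap (SR K) (LR K) (∏ κ ∈ J, gS (P.XK lam κ)) ≠ 0 :=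
    fun J => by rw [map_prod]; exact prod_ne_zero_iff.2 fun κ _ => hg κ
  have hnull : ∀ u v, G.M0.Null h p (u - v) → sigH P G ev u = sigH P G ev v := fun u v hn =>
    sub_eq_zero.1 ((map_sub _ u v).symm.trans (e2 _ hn))
  have hloc : ∀ (J : Finset I) (u : Io G univ → Ainv ℤ_[p] I (Ex0 I)), J.Nonempty →
      (∀ i, ∃ ω, u i ∈ G.M0.Ap ℤ_[p] J ω) →
      sigH P G ev u ∈ Loc (LR K) (fun v => gS (P.X1 lam v)) J := fun J u hJ hu =>
    sum_mem fun i _ => mul_mem (vw_const _ _ _) (e1' J _ _ hJ (hu i).choose_spec)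
  choose U hU using u1
  let T : I → PS (Io G univ) (Ainv ℤ_[p] I (Ex0 I)) →+ LR K := fun j =>
    AddMonoidHom.mk' (fun b => sigH P G ev (U j b)) fun b b' => by
      rw [← map_add]
      congr 1
      refine u2 j _ _ _ (hU j _) fun i => ?_
      rw [map_add, Pi.add_apply, hU j b i, hU j b' i, Pi.add_apply, smul_add]
  have hT : ∀ j b, T j b = sigH P G ev (U j b) := fun _ _ => rfl
  have hTp : ∀ j (a : Ainv ℤ_[p] I (Ex0 I)) b, T j (a ^ p • b) = ev a.1 * T j b := fun j a b => by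
    rw [hT, hT, ← sigH_smul]
    exact hnull _ _ (u5 j a b _ _ (hU j b) (hU j _))
  have hTj : ∀ j k ω b, b ∈ G.M0.Bh p univ (p • ω) → T j b = T k b := fun j k ω b hb =>
    hnull _ _ (u4 j k ω b _ _ hb (hU j b) (hU k b))
  let σ : Finset (I ⊕ₗ I) → LR K := fun J => T P.w (NhA p P.w J • G.xc h p x₀ m s)
  have hσ0 : σ ∅ = 0 := by
    have : NhA p P.w (∅ : Finset (I ⊕ₗ I)) = 0 := Subtype.ext (by rw [p2]; simp [NhP])
    simp only [σ, this, zero_smul, map_zero]
  let W : Finset (I ⊕ₗ I) → LR K := fun J =>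
    σ J / algebraMap (SR K) (LR K) (∏ κ ∈ J, gS (P.XK lam κ))
  have hW : ∀ J, algebraMap (SR K) (LR K) (∏ κ ∈ J, gS (P.XK lam κ)) * W J = σ J := fun J =>
    mul_div_cancel₀ _ (hG0 J)
  refine ⟨W, fun J => ?_, funext fun J => ?_, fun J u hu => ?_, ?_⟩
  · rcases J.eq_empty_or_nonempty with rfl | ⟨κ, hκ⟩
    · simp only [W, hσ0, zero_div]
      exact zero_mem _
    let D : Ideal (SR K) :=
      Submodule.comap (LinearMap.toSpanSingleton (SR K) (LR K) (σ J)) (1 : Submodule (SR K) (LR K))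
    have hD : ∀ x, x ∈ D ↔ ∃ a, algebraMap (SR K) (LR K) a = algebraMap (SR K) (LR K) x * σ J := by
      intro x
      simp [D, Submodule.mem_one, Algebra.smul_def]
    obtain ⟨N, hN⟩ := vw_rad hP lam D.radical (fun j => by
      obtain ⟨ω, hω⟩ := p3 J x₀ m s
      obtain ⟨N, a, ha⟩ := hloc {j} (U j _) (singleton_nonempty j) fun i =>
        ⟨_, u3 {j} j ω _ _ (mem_singleton_self j) (mono _ _ _ (empty_subset _) hω) (hU j _) i⟩
      refine ⟨N, (hD _).2 ⟨a, ?_⟩⟩
      rw [← ha, prod_singleton, map_pow, ← hT,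
        hTj j P.w ω _ (mono _ _ _ (empty_subset _) hω)]) κ
    obtain ⟨a, ha⟩ := (hD _).1 hN
    refine ⟨N + 1, (∏ κ' ∈ J.erase κ, gS (P.XK lam κ')) ^ N * a, ?_⟩
    rw [pow_succ, mul_assoc, hW, map_mul, ha, ← mul_prod_erase _ _ hκ]
    simp only [map_mul, map_pow]
    ring
  · refine mul_left_cancel₀ (hG0 J) ?_
    have h1 := congrArg (fun a => T P.w (a • G.xc h p x₀ m s)) (p5 J)
    simp only [zero_smul, map_zero, sum_smul, map_sum] at h1
    rw [vw_dl, Pi.zero_apply, mul_zero, mul_sum, ← h1]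
    refine sum_congr rfl fun κ hκ => ?_
    have e : ∀ (n : ℕ) (a : Ainv ℤ_[p] I (Ex0 I)), (-1) ^ n * a = ((-1 : ℤ) ^ n) • a := by
      intro n a
      simp
    rw [e, smul_assoc, map_zsmul, vw_ms, hTp, e5, mul_smul_comm, ← mul_prod_erase _ _ hκ,
      map_mul, mul_assoc]
    exact congrArg _ (congrArg _ (hW _))
  · rw [hW, u2 _ _ _ _ hu (hU _ _)]
    rfl
  · obtain ⟨w, -, hw, ζ, hζ, β, hβ, x₀', m', hr⟩ := hrel
    let zβ : Finset I → LR K := fun J => sigH P G ev fun i => β J (Pi.single i 1)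
    have hinj := map_injective (e1 I)
    refine ⟨Function.extend (Finset.map (e1 I)) zβ 0, fun J => ?_, fun J hJ => ?_⟩
    · by_cases hJ : ∃ J', Finset.map (e1 I) J' = J
      · obtain ⟨J', rfl⟩ := hJ
        rw [hinj.extend_apply]
        rcases J'.eq_empty_or_nonempty with rfl | hne
        · have : zβ ∅ = 0 := by
            simp only [zβ, hβ.1]
            exact map_zero _
          rw [this]
          exact zero_mem _
        obtain ⟨N, a, ha⟩ := hloc J' (fun i => β J' (Pi.single i 1)) hne fun i => ⟨_, by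
          have h1 := hβ.2 J' (Pi.single i 1) (Set.mem_univ _)
          simp only [sum_pi_single', mem_univ, if_true, le_refl] at h1
          exact h1⟩
        exact ⟨N, a, by rw [prod_map]; exact ha⟩
      · rw [Function.extend_apply' _ _ _ hJ]
        exact zero_mem _
    obtain ⟨J', -, rfl⟩ := subset_map_iff.1 hJ
    have h1 : dl (LR K) (LR K) (Function.extend (Finset.map (e1 I)) zβ 0) (J'.map (e1 I)) =
        dl (LR K) (LR K) zβ J' := by
      refine (vt.2 _ _ _ _ (eo I) _ J').trans ?_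
      exact congrArg (fun y => dl (LR K) (LR K) y J') (funext fun J => hinj.extend_apply _ _ J)
    have h2 : ccL (P.XK lam) (J'.map (e1 I)) = ccL (P.X1 lam) J' := vw_ccL (eo I) _ J'
    beta_reduce
    rw [h1, h2]
    rcases J'.eq_empty_or_nonempty with rfl | hne
    · simp [W, hσ0, ccL, vw_dl]
    have h3 : W (J'.map (e1 I)) = T P.w (G.xf h p x₀ m s J') := by
      refine mul_left_cancel₀ (hG0 (J'.map (e1 I))) ?_
      rw [hW]
      simp only [σ]
      rw [p6, vw_ms, hTp, prod_map, map_prod]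
      simp only [← e5, SubmonoidClass.coe_finsetProd, map_prod]
      rfl
    have h4 := hnull _ _ (u6 J' _ _ _ _ (hw J' hne) (hU _ _))
    have h5 := e2 _ (u7 w β _ ζ hζ hr J')
    have h6 : (fun i => w J' (Pi.single i 1) - dl ℤ_[p] _ (fun J => β J (Pi.single i 1)) J' -
        G.xf h p x₀' m' s' J' (Pi.single i 1)) = (fun i => w J' (Pi.single i 1)) -
        (∑ j ∈ J', ((-1 : ℤ) ^ (J'.filter (· < j)).card) •
          fun i => β (J'.erase j) (Pi.single i 1)) - cc ℤ_[p] (Ex0 I) J' • G.aI h p m' s' := by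
      funext i
      simp only [vw_dl, Pi.sub_apply, Finset.sum_apply, Pi.smul_apply, PG.xf, xc_one]
    rw [h6] at h5
    change sigH P G ev _ = 0 at h5
    rw [map_sub, map_sub, map_sum, sigH_smul, e4] at h5
    simp only [map_zsmul] at h5
    have h7' : sigH P G ev (G.aI h p m' s') = _ := e6 m' s'
    rw [h3, hTj P.w (J'.min' hne) 0 _ (mono _ _ _ (subset_univ _) (by
      rw [smul_zero]; exact p4 J' x₀ m s)), hT, h4, vw_dl, ← h7']
    linear_combination h5

end Pool.Agent.MP_ea150c_mp.H86
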